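import Pool.Agent.H43.KMLin
import Pool.Agent.H43.KMDefs

set_option autoImplicit false

namespace Pool.Agent.Results.MP_9b0515_pr.MoreStable

open Real MeasureTheory ProbabilityTheory Filter Topology Pool.Agent.H43.KM
open scoped NNReal ENNReal RealInnerProductSpace

abbrev E4 := EuclideanSpace ℝ (Fin 4)

noncomputable abbrev γ : Measure E4 := stdGaussian E4

def sF (x : E4) : ℝ := x 0 + x 1 + x 2 + x 3

noncomputable def rF (x : E4) : ℝ := 2 * x 0 - sF x / 2

lemma sF_meas : Measurable sF := by unfold sF; fun_prop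

lemma rF_meas : Measurable rF := by unfold rF sF; fun_prop

lemma law1 (w : E4) (v : ℝ≥0) (hv : ‖w‖ ^ 2 = v) :
    γ.map (fun x => ⟪w, x⟫) = gaussianReal 0 v := by
  have := IsGaussian.map_eq_gaussianReal (μ := γ) (innerSL ℝ w)
  rw [integral_strongDual_stdGaussian, variance_dual_stdGaussian, innerSL_apply_norm, hv,
    Real.toNNReal_coe] at this
  exact this

lemma joint : γ.map (fun x => (sF x, rF x)) = (gaussianReal 0 4).prod (gaussianReal 0 3) := by
  have h1 : sF = fun x => ⟪(!₂[1, 1, 1, 1] : E4), x⟫ := by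
    ext x; simp [sF, PiLp.inner_apply, Fin.sum_univ_four]
  have h2 : rF = fun x => ⟪(!₂[3 / 2, -1 / 2, -1 / 2, -1 / 2] : E4), x⟫ := by
    ext x; simp [rF, sF, PiLp.inner_apply, Fin.sum_univ_four]; ring
  have h3 : IndepFun sF rF γ := by
    rw [h1, h2]
    refine HasGaussianLaw.indepFun_of_covariance_eq_zero
      ((IsGaussian.hasGaussianLaw_id (μ := γ)).map_fun ((innerSL ℝ _).prod (innerSL ℝ _))) ?_
    rw [← covarianceBilin_apply_eq_cov IsGaussian.memLp_two_id, covarianceBilin_stdGaussian]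
    change ⟪(!₂[1, 1, 1, 1] : E4), (!₂[3 / 2, -1 / 2, -1 / 2, -1 / 2] : E4)⟫ = 0
    simp [PiLp.inner_apply, Fin.sum_univ_four]
    norm_num
  rw [(indepFun_iff_map_prod_eq_prod_map_map sF_meas.aemeasurable rF_meas.aemeasurable).1 h3,
    h1, h2, law1 _ 4, law1 _ 3] <;>
  · simp [EuclideanSpace.real_norm_sq_eq, Fin.sum_univ_four]; norm_num

noncomputable def nz (p : E4 × E4) : E4 := (3 / 4 : ℝ) • p.1 + √(1 - (3 / 4) ^ 2) • p.2

lemma nz_meas : Measurable nz := by unfold nz; fun_prop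

lemma cond (f : ℝ → ℝ) (hf : Measurable f) (x : E4) :
    ∫ y, f (sF (nz (x, y))) ∂γ = ∫ z, f (3 / 4 * sF x + z) ∂gaussianReal 0 (7 / 4) := by
  have hc : √(1 - (3 / 4) ^ 2) ^ 2 = 7 / 16 := by rw [sq_sqrt (by norm_num)]; norm_num
  rw [← law1 (√(1 - (3 / 4) ^ 2) • !₂[1, 1, 1, 1]) (7 / 4), integral_map (by fun_prop)
    (Measurable.aestronglyMeasurable (by fun_prop))]
  · congr 1; ext y; congr 1
    simp only [sF, nz, PiLp.inner_apply, Fin.sum_univ_four]
    simp
    ring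
  · rw [norm_smul, mul_pow, Real.norm_of_nonneg (sqrt_nonneg _), hc]
    simp [EuclideanSpace.real_norm_sq_eq, Fin.sum_univ_four]; norm_num

lemma symm (F K : E4 → ℝ) (hF : Measurable F) (hK : Measurable K) :
    ∫ p, F p.1 * K (nz p) ∂γ.prod γ = ∫ p, K p.1 * F (nz p) ∂γ.prod γ := by
  have h1 := IsGaussian.map_rotation_eq_self_of_forall_strongDual_eq_zero (μ := γ)
    integral_strongDual_stdGaussian (arccos (3 / 4))
  have h2 : γ.map (fun x => -x) = γ := stdGaussian_map (LinearIsometryEquiv.neg ℝ)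
  have h3 : MeasurePreserving (Prod.map id fun x : E4 => -x) (γ.prod γ) (γ.prod γ) :=
    (MeasurePreserving.id γ).prod ⟨by fun_prop, h2⟩
  have h4 := h3.comp ⟨(ContinuousLinearMap.rotation (E := E4) (arccos (3 / 4))).measurable, h1⟩
  have hn := nz_meas
  nth_rewrite 1 [← h4.map_eq]
  rw [integral_map h4.measurable.aemeasurable (Measurable.aestronglyMeasurable (by fun_prop))]
  congr 1; ext p
  have hc : √(1 - (3 / 4) ^ 2) * √(1 - (3 / 4) ^ 2) = 7 / 16 := by
    rw [mul_self_sqrt (by norm_num)]; norm_num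
  simp only [Function.comp, ContinuousLinearMap.rotation_apply, Prod.map, id,
    cos_arccos (show (-1 : ℝ) ≤ 3 / 4 by norm_num) (show (3 / 4 : ℝ) ≤ 1 by norm_num), sin_arccos, nz]
  rw [mul_comm]
  congr 2
  generalize √(1 - (3 / 4) ^ 2) = c at hc
  match_scalars <;> linarith

noncomputable def ph (δ : ℝ) (x : E4) : ℝ :=
  sF x - δ * G (sin (π * (round (sF x) / 2 + rF x)))

lemma ph_meas (δ : ℝ) : Measurable (ph δ) := by
  have h1 := sF_meas
  have h2 := rF_meas
  have h3 := G_meas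
  have hr : Measurable (round : ℝ → ℤ) := by
    have : (round : ℝ → ℤ) = fun s => ⌊s + 1 / 2⌋ := funext round_eq
    rw [this]; fun_prop
  unfold ph
  fun_prop

def Om (δ : ℝ) : Set E4 := {x | 0 ≤ sin (π * ph δ x)}

lemma Om_meas (δ : ℝ) : MeasurableSet (Om δ) :=
  measurableSet_le measurable_const (by have := ph_meas δ; fun_prop)

lemma stab_eq (δ : ℝ) : (stab (3 / 4) (Om δ)).toReal =
    ∫ p, I (ph δ p.1) * I (ph δ (nz p)) ∂γ.prod γ := by
  rw [stab, ← measureReal_def, ← integral_indicator_one]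
  · congr 1; ext p
    simp only [Set.indicator, Set.mem_ofPred_eq, Om, I, nz, Pi.one_apply]
    split_ifs <;> simp_all
  · exact (measurable_fst (Om_meas δ)).inter (nz_meas (Om_meas δ))

noncomputable def J (δ : ℝ) : ℝ → ℝ := Set.indicator {s | ∃ k : ℤ, |s - k| ≤ δ} 1

lemma Jset (δ : ℝ) : MeasurableSet {s : ℝ | ∃ k : ℤ, |s - k| ≤ δ} := by
  rw [Set.ofPred_exists]
  exact MeasurableSet.iUnion fun k => measurableSet_le (by fun_prop) measurable_const

lemma J_meas (δ : ℝ) : Measurable (J δ) := measurable_const.indicator (Jset δ)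

lemma J_bd (δ s : ℝ) : 0 ≤ J δ s ∧ J δ s ≤ 1 := by
  unfold J Set.indicator; split_ifs <;> simp

lemma J_int (v : ℝ≥0) (h1 : 1 ≤ v) (h4 : v ≤ 4) (δ : ℝ) (h0 : 0 ≤ δ) (hδ : δ ≤ 1) (t : ℝ) :
    ∫ y, J δ (t + y) ∂gaussianReal 0 v ≤ 2 * δ * C0 := by
  refine le_trans (le_of_eq ?_) (strip v h1 h4 δ h0 hδ t)
  exact integral_indicator_one (measurable_const_add t (Jset δ))

lemma D_le (δ : ℝ) (h0 : 0 ≤ δ) (x : E4) : |I (ph δ x) - I (sF x)| ≤ J δ (sF x) := by
  by_cases h : ∃ k : ℤ, |sF x - k| ≤ δ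
  · rw [J, Set.indicator_of_mem (show sF x ∈ {s : ℝ | ∃ k : ℤ, |s - k| ≤ δ} from h), Pi.one_apply]
    exact abs_le.2 ⟨by linarith [I_bd (ph δ x), I_bd (sF x)],
      by linarith [I_bd (ph δ x), I_bd (sF x)]⟩
  · have h1 : |ph δ x - sF x| ≤ δ := by
      rw [ph, sub_sub_cancel_left, abs_neg, abs_mul, abs_of_nonneg h0]
      exact mul_le_of_le_one_right h0 (G_abs _)
    have h2 := intermediate_value_uIcc (a := sF x) (b := ph δ x) (f := fun t => sin (π * t))
      (by fun_prop)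
    have h3 : (0 : ℝ) ∉ Set.uIcc (sin (π * sF x)) (sin (π * ph δ x)) := by
      intro h3
      obtain ⟨z, hz, h4⟩ := h2 h3
      obtain ⟨k, hk⟩ := sin_eq_zero_iff.1 h4
      have h5 := mul_left_cancel₀ pi_ne_zero ((mul_comm _ _).trans hk)
      refine h ⟨k, ?_⟩
      rw [h5, abs_sub_comm]
      exact (Set.abs_sub_left_of_mem_uIcc hz).trans h1
    rw [Set.mem_uIcc] at h3
    have h4 : I (ph δ x) = I (sF x) := by
      unfold I
      split_ifs with h5 h6 h6
      · rfl
      · exact absurd (Or.inl ⟨(not_le.1 h6).le, h5⟩) h3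
      · exact absurd (Or.inr ⟨(not_le.1 h5).le, h6⟩) h3
      · rfl
    rw [h4, sub_self, abs_zero]
    exact (J_bd _ _).1

lemma law_s : γ.map sF = gaussianReal 0 4 := by
  rw [← Measure.fst_map_prodMk rF_meas, joint, Measure.fst_prod]

lemma main_ineq (δ : ℝ) (h0 : 0 ≤ δ) (hδ : δ ≤ 1) :
    (stab (3 / 4) (Om 0)).toReal + 2 * L δ - (2 * δ * C0) ^ 2 ≤ (stab (3 / 4) (Om δ)).toReal := by
  have hI := I_meas
  have hs := sF_meas
  have hr := rF_meas
  have hp := ph_meas δ
  have hn := nz_meas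
  have hJ := J_meas δ
  have hG := G_meas
  have hH := H_cont.measurable
  have hro : Measurable (round : ℝ → ℤ) := by
    have : (round : ℝ → ℤ) = fun s => ⌊s + 1 / 2⌋ := funext round_eq
    rw [this]; fun_prop
  let D : E4 → ℝ := fun x => I (ph δ x) - I (sF x)
  have hD : Measurable D := by unfold D; fun_prop
  have hDb : ∀ x, |D x| ≤ 1 := fun x => (D_le δ h0 x).trans (J_bd _ _).2
  have hJb : ∀ s, |J δ s| ≤ 1 := fun s => by rw [abs_of_nonneg (J_bd _ _).1]; exact (J_bd _ _).2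
  have ib : ∀ F K : E4 → ℝ, Measurable F → Measurable K → (∀ x, |F x| ≤ 1) → (∀ x, |K x| ≤ 1) →
      Integrable (fun p => F p.1 * K (nz p)) (γ.prod γ) := fun F K h1 h2 h3 h4 =>
    int_bdd _ (by fun_prop) 1 fun p => by
      rw [abs_mul]; exact mul_le_one₀ (h3 _) (abs_nonneg _) (h4 _)
  have i1 := ib (fun x => I (sF x)) (fun x => I (sF x)) (by fun_prop) (by fun_prop)
    (fun _ => I_abs _) fun _ => I_abs _
  have i2 := ib D (fun x => I (sF x)) hD (by fun_prop) hDb fun _ => I_abs _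
  have i3 := ib (fun x => I (sF x)) D (by fun_prop) hD (fun _ => I_abs _) hDb
  have i4 := ib (fun x => J δ (sF x)) (fun x => J δ (sF x)) (by fun_prop) (by fun_prop)
    (fun _ => hJb _) fun _ => hJb _
  have i5 := ib (fun x => I (ph δ x)) (fun x => I (ph δ x)) (by fun_prop) (by fun_prop)
    (fun _ => I_abs _) fun _ => I_abs _
  have h1 := integral_mono (((i1.add i2).add i3).sub i4) i5 fun p => by
    simp only [Pi.add_apply, Pi.sub_apply, D]
    have h1 := mul_le_mul (D_le δ h0 p.1) (D_le δ h0 (nz p)) (abs_nonneg _) (J_bd _ _).1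
    rw [← abs_mul] at h1
    linarith [(abs_le.1 h1).1]
  rw [integral_sub' ((i1.add i2).add i3) i4, integral_add' (i1.add i2) i3, integral_add' i1 i2,
    symm (fun x => I (sF x)) D (by fun_prop) hD] at h1
  have h2 : ∫ p, D p.1 * I (sF (nz p)) ∂γ.prod γ = L δ := by
    rw [integral_prod _ i2]
    simp only [integral_const_mul, cond I hI]
    have h3 := integral_map (μ := γ) (φ := fun x => (sF x, rF x)) (by fun_prop)
      (f := fun q : ℝ × ℝ => (I (q.1 - δ * G (sin (π * (round q.1 / 2 + q.2)))) - I q.1) * H q.1)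
      (Measurable.aestronglyMeasurable (by fun_prop))
    rw [joint, integral_prod _ (int_bdd _ (by fun_prop) 1 fun q => ?_)] at h3
    · simp only [integral_mul_const] at h3
      exact h3.symm
    · rw [abs_mul]
      refine mul_le_one₀ (abs_le.2 ⟨?_, ?_⟩) (abs_nonneg _) (H_abs _) <;>
        linarith [I_bd q.1, I_bd (q.1 - δ * G (sin (π * (round q.1 / 2 + q.2))))]
  have hC : 0 ≤ 2 * δ * C0 := le_trans (integral_nonneg fun _ => (J_bd _ _).1)
    (J_int 4 (by norm_num) le_rfl δ h0 hδ 0)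
  have h3 : ∫ p, J δ (sF p.1) * J δ (sF (nz p)) ∂γ.prod γ ≤ (2 * δ * C0) ^ 2 := by
    rw [integral_prod _ i4]
    simp only [integral_const_mul, cond _ hJ]
    refine (integral_mono_of_nonneg (g := fun x => J δ (sF x) * (2 * δ * C0))
      (.of_forall fun x => mul_nonneg (J_bd _ _).1 (integral_nonneg fun _ => (J_bd _ _).1))
      ((int_bdd _ (by fun_prop) 1 fun _ => hJb _).mul_const _) (.of_forall fun x =>
        mul_le_mul_of_nonneg_left (J_int _ (by rw [← NNReal.coe_le_coe]; norm_num)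
          (by rw [← NNReal.coe_le_coe]; norm_num) δ h0 hδ _) (J_bd _ _).1)).trans ?_
    rw [integral_mul_const, sq, ← integral_map hs.aemeasurable hJ.aestronglyMeasurable, law_s]
    refine mul_le_mul_of_nonneg_right ?_ hC
    simpa using J_int 4 (by norm_num) le_rfl δ h0 hδ 0
  rw [stab_eq, stab_eq]
  simp only [ph, zero_mul, sub_zero] at h1 ⊢
  linarith

lemma null_s (K : Set ℝ) (hK : K.Countable) : ∀ᵐ x : E4, sF x ∉ K := by
  let L : E4 →ₗ[ℝ] ℝ :=
    { toFun := sF, map_add' := fun x y => by simp [sF]; ring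
      map_smul' := fun c x => by simp [sF]; ring }
  refine measure_eq_zero_iff_ae_notMem.1 (measure_mono_null (t := ⋃ t ∈ K,
    (AffineSubspace.mk' (EuclideanSpace.single (0 : Fin 4) t) (LinearMap.ker L) : Set E4)) (fun x hx => ?_)
    ((measure_biUnion_null_iff hK).2 fun t _ => Measure.addHaar_affineSubspace _ _ fun h => ?_))
  · refine Set.mem_biUnion (show sF x ∈ K from hx) ?_
    simp [AffineSubspace.mem_mk', L, sF]
    ring
  · have h2 : EuclideanSpace.single 0 (t + 1) ∈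
        AffineSubspace.mk' (EuclideanSpace.single (0 : Fin 4) t) (LinearMap.ker L) :=
      h ▸ AffineSubspace.mem_top _ _ _
    simp [AffineSubspace.mem_mk', L, sF] at h2

lemma periodic (δ : ℝ) : Periodic (Om δ) := by
  have h0 := null_s (Set.range fun q : ℤ × ℤ => (q.1 : ℝ) / 2 + δ * q.2) (Set.countable_range _)
  have key : ∀ s : ℝ, s ≠ 0 → (0 ≤ -s ↔ ¬ 0 ≤ s) := fun s hs =>
    ⟨fun h h' => hs (by linarith), fun h => by linarith [not_le.1 h]⟩
  have h1 : ∀ x : E4, sF x ∉ (Set.range fun q : ℤ × ℤ => (q.1 : ℝ) / 2 + δ * q.2) →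
      sin (π * ph δ x) ≠ 0 := by
    intro x hx h
    obtain ⟨k, hk⟩ := sin_eq_zero_iff.1 h
    have h5 := mul_left_cancel₀ pi_ne_zero ((mul_comm _ _).trans hk)
    obtain ⟨j, hj⟩ : ∃ j : ℤ, G (sin (π * (round (sF x) / 2 + rF x))) = j := by
      unfold G; split_ifs
      exacts [⟨1, by simp⟩, ⟨-1, by simp⟩, ⟨0, by simp⟩]
    rw [ph, hj] at h5
    exact hx ⟨(2 * k, j), by push_cast; linarith⟩
  refine ⟨fun i => ?_, ?_⟩
  · filter_upwards [h0] with x hx
    rw [Set.image_add_right]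
    refine propext (Iff.trans ?_ (key _ (h1 x hx)))
    have h2 : sF (x + -EuclideanSpace.single i (1 : ℝ)) = sF x - 1 := by
      fin_cases i <;> simp [sF] <;> ring
    obtain ⟨j, hj⟩ : ∃ j : ℤ, (x + -EuclideanSpace.single i (1 : ℝ) : E4) 0 = x 0 + j := by
      fin_cases i
      exacts [⟨-1, by simp⟩, ⟨0, by simp⟩, ⟨0, by simp⟩, ⟨0, by simp⟩]
    change 0 ≤ sin (π * ph δ _) ↔ _
    rw [← sin_sub_pi, ph, ph, rF, rF, h2, hj, round_sub_one,
      ← sin_add_int_mul_two_pi (π * (round (sF x) / 2 + _)) j]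
    congr! 2
    rw [show π * ((((round (sF x) - 1 : ℤ) : ℝ)) / 2 + (2 * (x 0 + j) - (sF x - 1) / 2)) =
      π * (round (sF x) / 2 + (2 * x 0 - sF x / 2)) + j * (2 * π) by push_cast; ring]
    ring
  · filter_upwards [h0] with x hx
    rw [Set.image_neg_eq_neg]
    refine propext (Iff.trans ?_ (key _ (h1 x hx)))
    have h2 : sF (-x) = -sF x := by simp [sF]; ring
    have h3 : rF (-x) = -rF x := by simp [rF, h2]; ring
    have h4 : round (-sF x) = -round (sF x) := by
      have h5 := round_eq_iff.1 (rfl : round (sF x) = _)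
      refine round_eq_iff.2 ⟨by push_cast; linarith [h5.2], ?_⟩
      push_cast
      refine lt_of_le_of_ne (by linarith [h5.1]) fun h => hx ⟨(2 * round (sF x) - 1, 0), ?_⟩
      push_cast; linarith
    change 0 ≤ sin (π * ph δ (-x)) ↔ _
    rw [← sin_neg, ph, ph, h2, h3, h4,
      show π * (((-round (sF x) : ℤ) : ℝ) / 2 + -rF x) = -(π * (round (sF x) / 2 + rF x)) by
        push_cast; ring, sin_neg (π * (round (sF x) / 2 + rF x)), G_neg]
    congr! 2
    ring

theorem result : ∃ Ω : Set (EuclideanSpace ℝ (Fin 4)), MeasurableSet Ω ∧ Periodic Ω ∧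
    stab (3 / 4) (halfSpace fun _ : Fin 4 => 1) < stab (3 / 4) Ω := by
  obtain ⟨c, hc, h1⟩ := L_pos
  have h2 : ∀ᶠ δ in 𝓝[>] (0 : ℝ), δ < min 1 (c / (4 * C0 ^ 2 + 1)) :=
    nhdsWithin_le_nhds (gt_mem_nhds (by positivity))
  obtain ⟨δ, ⟨h3, h4⟩, h5⟩ := ((h1.and h2).and self_mem_nhdsWithin).exists
  have h0 : 0 < δ := h5
  refine ⟨Om δ, Om_meas δ, periodic δ, ?_⟩
  have h6 : (halfSpace fun _ : Fin 4 => 1) = Om 0 := by
    ext x; simp [halfSpace, Om, ph, sF, Fin.sum_univ_four]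
  have h8 : ∀ A : Set E4, stab (3 / 4) A ≠ ⊤ := fun A => measure_ne_top _ _
  rw [h6, ← ENNReal.toReal_lt_toReal (h8 _) (h8 _)]
  refine lt_of_lt_of_le ?_ (main_ineq δ h0.le (h4.le.trans (min_le_left _ _)))
  have h7 := (lt_div_iff₀ (by positivity)).1 (h4.trans_le (min_le_right _ _))
  nlinarith [mul_lt_mul_of_pos_left h7 h0, mul_pos hc h0, sq_nonneg δ]

end Pool.Agent.Results.MP_9b0515_pr.MoreStable
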